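import Pool.Agent.Q169.Cliff.Det8
import Pool.Agent.Q169.Cliff.Chart

set_option autoImplicit false

namespace Pool.Agent.Results.MP_782c7c_an.LinkedCircles

open Matrix Kronecker Complex

/-- Matrices satisfying the relations of the generators of the Clifford algebra. -/
structure IsCliffordRep {d r : ℕ} (γ : Fin d → Matrix (Fin r) (Fin r) ℂ) : Prop where
  pos : 1 ≤ r
  herm : ∀ j, (γ j).IsHermitian
  sq : ∀ j, γ j * γ j = 1
  anti : ∀ j l, j ≠ l → γ j * γ l = -(γ l * γ j)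

/-- `∑ j, (A j - lam j) ⊗ γ j`. -/
def localizer {n d r : ℕ} (γ : Fin d → Matrix (Fin r) (Fin r) ℂ)
    (A : Fin d → Matrix (Fin n) (Fin n) ℂ) (lam : Fin d → ℝ) :
    Matrix (Fin n × Fin r) (Fin n × Fin r) ℂ :=
  ∑ j, (A j - (lam j : ℂ) • (1 : Matrix (Fin n) (Fin n) ℂ)) ⊗ₖ γ j

/-- The Clifford spectrum: the points at which the spectral localizer is not invertible. -/
def cliffordSpectrum {n d r : ℕ} (γ : Fin d → Matrix (Fin r) (Fin r) ℂ)
    (A : Fin d → Matrix (Fin n) (Fin n) ℂ) : Set (Fin d → ℝ) :=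
  {lam | ¬ IsUnit (localizer γ A lam)}

/-- A nonempty subset of `ℝ^d` in which (for the subspace topology) every point has an open
neighbourhood homeomorphic to the real line. -/
def IsOneManifold {d : ℕ} (S : Set (Fin d → ℝ)) : Prop :=
  S.Nonempty ∧ ∀ p : S, ∃ U : Set S, IsOpen U ∧ p ∈ U ∧ Nonempty (U ≃ₜ ℝ)

/-- The Pauli matrices. -/
def pauli : Fin 3 → Matrix (Fin 2) (Fin 2) ℂ :=
  ![!![0, 1; 1, 0], !![0, -I; I, 0], !![1, 0; 0, -1]]

theorem pauli_rep : IsCliffordRep pauli where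
  pos := by norm_num
  herm := by
    intro j
    fin_cases j
    all_goals
      ext a b
      fin_cases a <;> fin_cases b <;> simp [pauli, Matrix.conjTranspose]
  sq := by
    intro j
    fin_cases j
    all_goals
      ext a b
      fin_cases a <;> fin_cases b <;> simp [pauli, Matrix.mul_apply, Fin.sum_univ_two]
  anti := by
    intro j l hjl
    fin_cases j <;> fin_cases l
    all_goals first
      | exact absurd rfl hjl
      | (ext a b
         fin_cases a <;> fin_cases b <;> simp [pauli, Matrix.mul_apply, Fin.sum_univ_two])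

noncomputable def P1 : Matrix (Fin 4) (Fin 4) ℂ :=
  !![0, 0, 9/2, 0; 0, 0, 0, -1/2; 9/2, 0, 0, 0; 0, -1/2, 0, 0]
noncomputable def P2 : Matrix (Fin 4) (Fin 4) ℂ :=
  !![0, 0, -(9/2)*I, 0; 0, 0, 0, (1/2)*I; (9/2)*I, 0, 0, 0; 0, -(1/2)*I, 0, 0]
noncomputable def P3 : Matrix (Fin 4) (Fin 4) ℂ :=
  !![0, 1, 0, 0; 1, 0, 0, 0; 0, 0, 0, 1; 0, 0, 1, 0]

/-- first tuple -/
noncomputable def Pt : Fin 3 → Matrix (Fin 4) (Fin 4) ℂ := ![P1, P2, P3]
/-- second tuple: a rotated and translated copy of the first -/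
noncomputable def Qt : Fin 3 → Matrix (Fin 4) (Fin 4) ℂ := ![1 + P1, -P3, P2]

/-- the tuple of `8 × 8` matrices -/
noncomputable def At (j : Fin 3) : Matrix (Fin 8) (Fin 8) ℂ :=
  (Matrix.fromBlocks (Pt j) 0 0 (Qt j)).submatrix (finSumFinEquiv (m := 4) (n := 4)).symm
    (finSumFinEquiv (m := 4) (n := 4)).symm

theorem P1_herm : P1.IsHermitian := by
  ext a b
  fin_cases a <;> fin_cases b <;> simp [P1, Matrix.conjTranspose, map_ofNat]
theorem P2_herm : P2.IsHermitian := by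
  ext a b
  fin_cases a <;> fin_cases b <;> simp [P2, Matrix.conjTranspose, map_ofNat]
theorem P3_herm : P3.IsHermitian := by
  ext a b
  fin_cases a <;> fin_cases b <;> simp [P3, Matrix.conjTranspose]

theorem At_herm : ∀ j, (At j).IsHermitian := by
  intro j
  apply Matrix.IsHermitian.submatrix
  rw [Matrix.isHermitian_fromBlocks_iff]
  fin_cases j
  · exact ⟨P1_herm, by simp, by simp, Matrix.isHermitian_one.add P1_herm⟩
  · exact ⟨P2_herm, by simp, by simp, P3_herm.neg⟩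
  · exact ⟨P3_herm, by simp, by simp, P2_herm⟩

/-- The polynomial whose zero set is the Clifford spectrum of the first tuple. -/
def Fp (x y z : ℝ) : ℝ :=
  ((x^2+y^2+z^2+1)^2 + 5*z^2 - 9)^2 + 64*z^2*(2-(x^2+y^2+z^2+1))^2

theorem det_Pt (lam : Fin 3 → ℝ) :
    (localizer pauli Pt lam).det = ((Fp (lam 0) (lam 1) (lam 2) : ℝ) : ℂ) := by
  rw [← Matrix.det_submatrix_equiv_self
    ((Equiv.prodComm (Fin 4) (Fin 2)).trans (finProdFinEquiv (m := 2) (n := 4))).symm]
  set w : ℂ := (lam 0 : ℂ) + I * (lam 1 : ℂ) with hw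
  set v : ℂ := (lam 0 : ℂ) - I * (lam 1 : ℂ) with hv
  have hL : (localizer pauli Pt lam).submatrix
      ((Equiv.prodComm (Fin 4) (Fin 2)).trans (finProdFinEquiv (m := 2) (n := 4))).symm
      ((Equiv.prodComm (Fin 4) (Fin 2)).trans (finProdFinEquiv (m := 2) (n := 4))).symm =
      !![-(lam 2 : ℂ), 1, 0, 0, -v, 0, 0, 0;
        1, -(lam 2 : ℂ), 0, 0, 0, -v, 0, 0;
        0, 0, -(lam 2 : ℂ), 1, 9, 0, -v, 0;
        0, 0, 1, -(lam 2 : ℂ), 0, -1, 0, -v;
        -w, 0, 9, 0, (lam 2 : ℂ), -1, 0, 0;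
        0, -w, 0, -1, -1, (lam 2 : ℂ), 0, 0;
        0, 0, -w, 0, 0, 0, (lam 2 : ℂ), -1;
        0, 0, 0, -w, 0, 0, -1, (lam 2 : ℂ)] := by
    have hII : I * I = -1 := Complex.I_mul_I
    ext a b
    fin_cases a <;> fin_cases b <;>
      simp [localizer, pauli, Pt, P1, P2, P3, Fin.sum_univ_three, finProdFinEquiv, Fin.divNat,
        Fin.modNat, Matrix.one_apply, hw, hv] <;> first | (ring1) | (ring_nf; simp [Complex.I_sq]; done) | (ring_nf; simp [Complex.I_sq]; ring1) | (ring_nf; rw [Complex.I_sq]; ring1)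
  rw [hL, Pool.Agent.Q169.Cliff.det8]
  have hwv : w * v = (lam 0 : ℂ)^2 + (lam 1 : ℂ)^2 := by
    rw [hw, hv]
    have hII : I ^ 2 = -1 := Complex.I_sq
    linear_combination (-(lam 1 : ℂ)^2) * hII
  rw [hwv]
  simp only [Fp]
  push_cast
  ring

/-- spin rotation -/
noncomputable def Sp : Matrix (Fin 2) (Fin 2) ℂ := !![1, -I; -I, 1]

theorem Sp_rel1 : pauli 0 * Sp = Sp * pauli 0 := by
  ext a b; fin_cases a <;> fin_cases b <;> simp [pauli, Sp, Matrix.mul_apply, Fin.sum_univ_two]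
theorem Sp_rel2 : pauli 2 * Sp = Sp * pauli 1 := by
  ext a b; fin_cases a <;> fin_cases b <;> simp [pauli, Sp, Matrix.mul_apply, Fin.sum_univ_two]
theorem Sp_rel3 : -(pauli 1 * Sp) = Sp * pauli 2 := by
  ext a b; fin_cases a <;> fin_cases b <;> simp [pauli, Sp, Matrix.mul_apply, Fin.sum_univ_two]

theorem det_Sp : Sp.det = 2 := by
  rw [Sp, Matrix.det_fin_two_of]
  have hII : I * I = -1 := Complex.I_mul_I
  linear_combination -hII

theorem det_Qt (lam : Fin 3 → ℝ) :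
    (localizer pauli Qt lam).det =
      ((Fp (lam 0 - 1) (lam 2) (-lam 1) : ℝ) : ℂ) := by
  set lam' : Fin 3 → ℝ := ![lam 0 - 1, lam 2, -lam 1] with hlam'
  have h0 : Qt 0 - (lam 0 : ℂ) • (1 : Matrix (Fin 4) (Fin 4) ℂ) =
      Pt 0 - (lam' 0 : ℂ) • (1 : Matrix (Fin 4) (Fin 4) ℂ) := by
    have e1 : Qt 0 = 1 + P1 := rfl
    have e2 : Pt 0 = P1 := rfl
    have e3 : lam' 0 = lam 0 - 1 := rfl
    rw [e1, e2, e3]
    push_cast
    rw [sub_smul, one_smul]; abel
  have h1 : Qt 1 - (lam 1 : ℂ) • (1 : Matrix (Fin 4) (Fin 4) ℂ) =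
      -(Pt 2 - (lam' 2 : ℂ) • (1 : Matrix (Fin 4) (Fin 4) ℂ)) := by
    have e1 : Qt 1 = -P3 := rfl
    have e2 : Pt 2 = P3 := rfl
    have e3 : lam' 2 = -lam 1 := rfl
    rw [e1, e2, e3]
    push_cast
    rw [neg_smul]; abel
  have h2 : Qt 2 - (lam 2 : ℂ) • (1 : Matrix (Fin 4) (Fin 4) ℂ) =
      Pt 1 - (lam' 1 : ℂ) • (1 : Matrix (Fin 4) (Fin 4) ℂ) := rfl
  have hLP : localizer pauli Pt lam' =
      (Pt 0 - (lam' 0 : ℂ) • (1 : Matrix (Fin 4) (Fin 4) ℂ)) ⊗ₖ pauli 0 +
      (Pt 1 - (lam' 1 : ℂ) • (1 : Matrix (Fin 4) (Fin 4) ℂ)) ⊗ₖ pauli 1 +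
      (Pt 2 - (lam' 2 : ℂ) • (1 : Matrix (Fin 4) (Fin 4) ℂ)) ⊗ₖ pauli 2 := by
    rw [localizer, Fin.sum_univ_three]
  have hLQ : localizer pauli Qt lam =
      (Pt 0 - (lam' 0 : ℂ) • (1 : Matrix (Fin 4) (Fin 4) ℂ)) ⊗ₖ pauli 0 +
      (Pt 2 - (lam' 2 : ℂ) • (1 : Matrix (Fin 4) (Fin 4) ℂ)) ⊗ₖ (-pauli 1) +
      (Pt 1 - (lam' 1 : ℂ) • (1 : Matrix (Fin 4) (Fin 4) ℂ)) ⊗ₖ pauli 2 := by
    rw [localizer, Fin.sum_univ_three, h0, h1, h2]
    congr 2
    ext ⟨a, b⟩ ⟨c, d⟩
    simp only [Matrix.kroneckerMap_apply, Matrix.neg_apply]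
    ring
  have hint : localizer pauli Qt lam * ((1 : Matrix (Fin 4) (Fin 4) ℂ) ⊗ₖ Sp) =
      ((1 : Matrix (Fin 4) (Fin 4) ℂ) ⊗ₖ Sp) * localizer pauli Pt lam' := by
    rw [hLQ, hLP]
    simp only [Matrix.add_mul, Matrix.mul_add, ← Matrix.mul_kronecker_mul, Matrix.mul_one,
      Matrix.one_mul, Matrix.neg_mul, Sp_rel1, Sp_rel2, Sp_rel3]
    abel
  have hdet := congrArg Matrix.det hint
  rw [Matrix.det_mul, Matrix.det_mul, mul_comm] at hdet
  have hne : ((1 : Matrix (Fin 4) (Fin 4) ℂ) ⊗ₖ Sp).det ≠ 0 := by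
    rw [Matrix.det_kronecker, Matrix.det_one, det_Sp]
    simp
  have := mul_left_cancel₀ hne hdet
  rw [this, det_Pt]
  rfl

theorem det_At (lam : Fin 3 → ℝ) :
    (localizer pauli At lam).det =
      ((Fp (lam 0) (lam 1) (lam 2) * Fp (lam 0 - 1) (lam 2) (-lam 1) : ℝ) : ℂ) := by
  set E : Fin 8 × Fin 2 ≃ (Fin 4 × Fin 2) ⊕ (Fin 4 × Fin 2) :=
    ((finSumFinEquiv (m := 4) (n := 4)).symm.prodCongr (Equiv.refl (Fin 2))).trans
      (Equiv.sumProdDistrib _ _ _) with hE
  have hL : localizer pauli At lam =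
      (Matrix.fromBlocks (localizer pauli Pt lam) 0 0 (localizer pauli Qt lam)).submatrix E E := by
    ext ⟨a, s⟩ ⟨b, t⟩
    obtain ⟨a', rfl⟩ := (finSumFinEquiv (m := 4) (n := 4)).surjective a
    obtain ⟨b', rfl⟩ := (finSumFinEquiv (m := 4) (n := 4)).surjective b
    have hEE : ∀ (c : Fin 4 ⊕ Fin 4) (u : Fin 2), E ((finSumFinEquiv (m := 4) (n := 4)) c, u) =
        (Equiv.sumProdDistrib _ _ _) (c, u) := by
      intro c u; simp [hE]
    have hone : (1 : Matrix (Fin 8) (Fin 8) ℂ) ((finSumFinEquiv (m := 4) (n := 4)) a')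
        ((finSumFinEquiv (m := 4) (n := 4)) b') = (1 : Matrix (Fin 4 ⊕ Fin 4) _ ℂ) a' b' := by
      simp [Matrix.one_apply]
    have hentry : ∀ j, At j ((finSumFinEquiv (m := 4) (n := 4)) a')
        ((finSumFinEquiv (m := 4) (n := 4)) b') = Matrix.fromBlocks (Pt j) 0 0 (Qt j) a' b' := by
      intro j; simp [At]
    simp only [localizer, Matrix.sum_apply, Matrix.kroneckerMap_apply, Matrix.sub_apply,
      Matrix.smul_apply, hentry, hone, Matrix.submatrix_apply, hEE]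
    rcases a' with a' | a' <;> rcases b' with b' | b' <;>
      simp [localizer, Matrix.sum_apply, Matrix.one_apply]
  rw [hL, Matrix.det_submatrix_equiv_self, Matrix.det_fromBlocks_zero₂₁, det_Pt, det_Qt]
  push_cast
  rfl

theorem Fp_zero (x y z : ℝ) :
    Fp x y z = 0 ↔ (x^2 + y^2 = 2 ∧ z = 0) ∨ (x = 0 ∧ y = 0 ∧ z^2 = 1) := by
  constructor
  · intro h
    rw [Fp] at h
    set s := x^2+y^2+z^2+1 with hs
    have hq : 0 ≤ z^2 * (2-s)^2 := mul_nonneg (sq_nonneg z) (sq_nonneg (2-s))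
    have hr : 0 ≤ (s^2 + 5*z^2 - 9)^2 := sq_nonneg _
    have h1 : (s^2 + 5*z^2 - 9)^2 = 0 := by linarith
    have h2 : (z*(2-s))^2 = 0 := by
      rw [mul_pow]; linarith
    have h3 : s^2 + 5*z^2 - 9 = 0 := pow_eq_zero_iff two_ne_zero |>.mp h1
    have h4 : z*(2-s) = 0 := pow_eq_zero_iff two_ne_zero |>.mp h2
    rcases mul_eq_zero.mp h4 with h5 | h5
    · left
      refine ⟨?_, h5⟩
      rw [h5] at h3
      have hs0 : 0 < s := by rw [hs]; positivity
      have h6 : (s-3)*(s+3) = 0 := by linarith [h3]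
      rcases mul_eq_zero.mp h6 with h7 | h7
      · rw [hs, h5] at h7; linarith
      · linarith
    · right
      have hs2 : s = 2 := by linarith
      rw [hs2] at h3
      have hz : z^2 = 1 := by linarith
      have hxy : x^2 + y^2 = 0 := by rw [hs, hz] at hs2; linarith
      refine ⟨?_, ?_, hz⟩
      · nlinarith [sq_nonneg x, sq_nonneg y]
      · nlinarith [sq_nonneg x, sq_nonneg y]
  · rintro (⟨h1, h2⟩ | ⟨h1, h2, h3⟩)
    · rw [Fp, h2]
      have : x^2+y^2+(0:ℝ)^2+1 = 3 := by rw [h1]; norm_num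
      rw [this]; norm_num
    · rw [Fp, h1, h2, h3]; norm_num

/-- first circle -/
def K1 : Set (Fin 3 → ℝ) := {l | (l 0)^2 + (l 1)^2 = 2 ∧ l 2 = 0}
/-- second circle -/
def K2 : Set (Fin 3 → ℝ) := {l | (l 0 - 1)^2 + (l 2)^2 = 2 ∧ l 1 = 0}

theorem spectrum_eq : cliffordSpectrum pauli At = K1 ∪ K2 := by
  ext l
  have hdet : l ∈ cliffordSpectrum pauli At ↔
      Fp (l 0) (l 1) (l 2) * Fp (l 0 - 1) (l 2) (-l 1) = 0 := by
    show ¬ IsUnit (localizer pauli At l) ↔ _
    rw [Matrix.isUnit_iff_isUnit_det, det_At, isUnit_iff_ne_zero, not_not]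
    constructor
    · intro h; exact_mod_cast h
    · intro h; rw [h]; simp
  rw [hdet, mul_eq_zero, Fp_zero, Fp_zero]
  constructor
  · rintro ((⟨h1, h2⟩ | ⟨h1, h2, h3⟩) | (⟨h1, h2⟩ | ⟨h1, h2, h3⟩))
    · exact Or.inl ⟨h1, h2⟩
    · refine Or.inr ⟨?_, h2⟩
      rw [h1, h3]; norm_num
    · exact Or.inr ⟨h1, by linarith⟩
    · refine Or.inl ⟨?_, h2⟩
      have h4 : l 0 = 1 := by linarith
      have h5 : (l 1)^2 = 1 := by rw [← h3]; ring
      rw [h4, h5]; norm_num
  · rintro (⟨h1, h2⟩ | ⟨h1, h2⟩)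
    · exact Or.inl (Or.inl ⟨h1, h2⟩)
    · exact Or.inr (Or.inl ⟨h1, by rw [h2]; simp⟩)

theorem K1_closed : IsClosed K1 := by
  apply IsClosed.inter
  · exact isClosed_eq (by fun_prop) continuous_const
  · exact isClosed_eq (by fun_prop) continuous_const

theorem K2_closed : IsClosed K2 := by
  apply IsClosed.inter
  · exact isClosed_eq (by fun_prop) continuous_const
  · exact isClosed_eq (by fun_prop) continuous_const

theorem disj (l : Fin 3 → ℝ) (h1 : l ∈ K1) (h2 : l ∈ K2) : False := by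
  obtain ⟨a1, a2⟩ := h1
  obtain ⟨b1, b2⟩ := h2
  rw [a2] at b1
  rw [b2] at a1
  nlinarith

theorem union_manifold : IsOneManifold (K1 ∪ K2) := by
  refine ⟨⟨![1, 1, 0], Or.inl ⟨by simp; norm_num, by simp⟩⟩, ?_⟩
  rintro ⟨p, hp⟩
  rcases hp with hp | hp
  · obtain ⟨F, G, hF, hG, hF1, hGF, hFG⟩ :=
      Pool.Agent.Q169.Cliff.circle_chart (p 0) (p 1) hp.1
    set V : Set (Fin 3 → ℝ) := {l | l ∈ K1 ∧ l ≠ ![-p 0, -p 1, 0]} with hV
    refine Pool.Agent.Q169.Cliff.chart (K1 ∪ K2) V (fun l hl => Or.inl hl.1) ?_ _ ?_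
      (fun t => ![(F t).1, (F t).2, 0]) ?_ (fun l => G (l 0, l 1)) ?_ ?_ ?_ ?_
    · have hc : IsClosed (K2 ∪ {![-p 0, -p 1, 0]}) := K2_closed.union isClosed_singleton
      have : (Subtype.val ⁻¹' V : Set ↥(K1 ∪ K2)) =
          Subtype.val ⁻¹' (K2 ∪ {![-p 0, -p 1, 0]})ᶜ := by
        ext ⟨l, hl⟩
        simp only [Set.mem_preimage, hV, Set.mem_ofPred_eq, Set.mem_compl_iff, Set.mem_union,
          Set.mem_singleton_iff, not_or]
        constructor
        · rintro ⟨h1, h2⟩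
          exact ⟨fun h3 => disj l h1 h3, h2⟩
        · rintro ⟨h1, h2⟩
          exact ⟨hl.resolve_right h1, h2⟩
      rw [this]
      exact hc.isOpen_compl.preimage continuous_subtype_val
    · refine ⟨hp, fun h => ?_⟩
      have e0 := congrFun h 0
      have e1 := congrFun h 1
      simp at e0 e1
      have h1 := hp.1
      have h2 : p 0 = 0 := by linarith
      have h3 : p 1 = 0 := by linarith
      rw [h2, h3] at h1; norm_num at h1
    · apply continuous_pi
      intro i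
      fin_cases i
      · exact continuous_fst.comp hF
      · exact continuous_snd.comp hF
      · exact continuous_const
    · refine hG.comp (by fun_prop) ?_
      rintro l ⟨hl, hne⟩
      refine ⟨hl.1, fun h => hne ?_⟩
      have e0 := congrArg Prod.fst h
      have e1 := congrArg Prod.snd h
      ext i; fin_cases i
      · exact e0
      · exact e1
      · exact hl.2
    · intro t
      refine ⟨⟨(hF1 t).1, rfl⟩, fun h => (hF1 t).2 ?_⟩
      exact Prod.ext (congrFun h 0) (congrFun h 1)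
    · intro t; exact hGF t
    · rintro l ⟨hl, hne⟩
      have h1 := hFG (l 0, l 1) hl.1 (fun h => hne (by
        ext i; fin_cases i
        · exact congrArg Prod.fst h
        · exact congrArg Prod.snd h
        · exact hl.2))
      ext i; fin_cases i
      · exact congrArg Prod.fst h1
      · exact congrArg Prod.snd h1
      · exact hl.2.symm
  · obtain ⟨F, G, hF, hG, hF1, hGF, hFG⟩ :=
      Pool.Agent.Q169.Cliff.circle_chart (p 0 - 1) (p 2) hp.1
    set V : Set (Fin 3 → ℝ) := {l | l ∈ K2 ∧ l ≠ ![1 - (p 0 - 1), 0, -p 2]} with hV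
    refine Pool.Agent.Q169.Cliff.chart (K1 ∪ K2) V (fun l hl => Or.inr hl.1) ?_ _ ?_
      (fun t => ![1 + (F t).1, 0, (F t).2]) ?_ (fun l => G (l 0 - 1, l 2)) ?_ ?_ ?_ ?_
    · have hc : IsClosed (K1 ∪ {![1 - (p 0 - 1), 0, -p 2]}) := K1_closed.union isClosed_singleton
      have : (Subtype.val ⁻¹' V : Set ↥(K1 ∪ K2)) =
          Subtype.val ⁻¹' (K1 ∪ {![1 - (p 0 - 1), 0, -p 2]})ᶜ := by
        ext ⟨l, hl⟩
        simp only [Set.mem_preimage, hV, Set.mem_ofPred_eq, Set.mem_compl_iff, Set.mem_union,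
          Set.mem_singleton_iff, not_or]
        constructor
        · rintro ⟨h1, h2⟩
          exact ⟨fun h3 => disj l h3 h1, h2⟩
        · rintro ⟨h1, h2⟩
          exact ⟨hl.resolve_left h1, h2⟩
      rw [this]
      exact hc.isOpen_compl.preimage continuous_subtype_val
    · refine ⟨hp, fun h => ?_⟩
      have e0 := congrFun h 0
      have e1 := congrFun h 2
      simp at e0 e1
      have h1 := hp.1
      have h2 : p 0 - 1 = 0 := by linarith
      have h3 : p 2 = 0 := by linarith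
      rw [h2, h3] at h1; norm_num at h1
    · apply continuous_pi
      intro i
      fin_cases i
      · exact continuous_const.add (continuous_fst.comp hF)
      · exact continuous_const
      · exact continuous_snd.comp hF
    · refine hG.comp (by fun_prop) ?_
      rintro l ⟨hl, hne⟩
      refine ⟨hl.1, fun h => hne ?_⟩
      have e0 : l 0 - 1 = -(p 0 - 1) := congrArg Prod.fst h
      have e1 : l 2 = -p 2 := congrArg Prod.snd h
      ext i; fin_cases i
      · show l 0 = 1 - (p 0 - 1)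
        linarith
      · exact hl.2
      · exact e1
    · intro t
      refine ⟨⟨?_, rfl⟩, fun h => (hF1 t).2 ?_⟩
      · show (1 + (F t).1 - 1)^2 + ((F t).2)^2 = 2
        have := (hF1 t).1
        have e : 1 + (F t).1 - 1 = (F t).1 := by ring
        rw [e]; exact this
      · have e0 : 1 + (F t).1 = 1 - (p 0 - 1) := congrFun h 0
        have e1 : (F t).2 = -p 2 := congrFun h 2
        exact Prod.ext (by show (F t).1 = -(p 0 - 1); linarith) e1
    · intro t
      show G (1 + (F t).1 - 1, (F t).2) = t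
      have e : 1 + (F t).1 - 1 = (F t).1 := by ring
      rw [e]; exact hGF t
    · rintro l ⟨hl, hne⟩
      have h1 := hFG (l 0 - 1, l 2) hl.1 (fun h => hne (by
        have e0 : l 0 - 1 = -(p 0 - 1) := congrArg Prod.fst h
        have e1 : l 2 = -p 2 := congrArg Prod.snd h
        ext i; fin_cases i
        · show l 0 = 1 - (p 0 - 1)
          linarith
        · exact hl.2
        · exact e1))
      have e0 : (F (G (l 0 - 1, l 2))).1 = l 0 - 1 := congrArg Prod.fst h1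
      have e1 : (F (G (l 0 - 1, l 2))).2 = l 2 := congrArg Prod.snd h1
      ext i; fin_cases i
      · show 1 + (F (G (l 0 - 1, l 2))).1 = l 0
        rw [e0]; ring
      · exact hl.2.symm
      · exact e1

/-- There are three Hermitian `8 × 8` matrices whose Clifford spectrum is a one-manifold. -/
theorem result : ∃ (n d r : ℕ) (γ : Fin d → Matrix (Fin r) (Fin r) ℂ)
    (A : Fin d → Matrix (Fin n) (Fin n) ℂ), n = 8 ∧ d = 3 ∧ IsCliffordRep γ ∧
    (∀ j, (A j).IsHermitian) ∧ IsOneManifold (cliffordSpectrum γ A) := by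
  refine ⟨8, 3, 2, pauli, At, rfl, rfl, pauli_rep, At_herm, ?_⟩
  rw [spectrum_eq]
  exact union_manifold

end Pool.Agent.Results.MP_782c7c_an.LinkedCircles
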